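import Pool.Agent.H34.PS.Targets

/-!
# LG: the large `b` together (`MP_669880_nt`)
-/

set_option autoImplicit false

open Finset

namespace Pool.Agent.H32.PSQ

open Pool.Agent.H34.PS

/-- the function of `b` in DM -/
noncomputable def gb (b : ℕ) : ℝ :=
  (2 + Real.log (4 * b)) * (1 + Real.log b) ^ 2 / (b : ℝ) ^ (3 / 2 : ℝ)

theorem gb_le (b : ℕ) (hb : 1 ≤ b) : 0 ≤ gb b ∧ gb b ≤ 2704 * (b : ℝ) ^ (-(5 / 4) : ℝ) := by
  have hb1 : (1 : ℝ) ≤ b := by exact_mod_cast hb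
  have hb0 : (0 : ℝ) < b := by linarith
  have hl : 0 ≤ Real.log b := Real.log_nonneg hb1
  have hl4 : 0 ≤ Real.log (4 * b) := Real.log_nonneg (by linarith)
  refine ⟨by unfold gb; positivity, ?_⟩
  set z : ℝ := (b : ℝ) ^ (1 / 12 : ℝ) with hz
  have hz1 : 1 ≤ z := Real.one_le_rpow hb1 (by norm_num)
  have h1 : Real.log b ≤ 12 * z := by
    have := Real.log_le_rpow_div hb0.le (show (0 : ℝ) < 1 / 12 by norm_num)
    calc _ ≤ z / (1 / 12) := this
      _ = 12 * z := by ring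
  have h2 : Real.log (4 * b) ≤ 2 + 12 * z := by
    rw [Real.log_mul (by norm_num) hb0.ne']
    have h3 : Real.log 4 ≤ 2 := by
      have h4 : Real.log 4 = 2 * Real.log 2 := by
        rw [show (4 : ℝ) = 2 ^ 2 by norm_num, Real.log_pow]
        norm_num
      linarith [Real.log_two_lt_d9]
    linarith
  have h5 : 2 + Real.log (4 * b) ≤ 16 * z := by linarith
  have h6 : 1 + Real.log b ≤ 13 * z := by linarith
  have h7 : (1 + Real.log b) ^ 2 ≤ (13 * z) ^ 2 := pow_le_pow_left₀ (by linarith) h6 2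
  have h8 : z ^ 3 = (b : ℝ) ^ (1 / 4 : ℝ) := by
    rw [hz, ← Real.rpow_natCast, ← Real.rpow_mul hb0.le]
    norm_num
  have h9 : 0 < (b : ℝ) ^ (3 / 2 : ℝ) := Real.rpow_pos_of_pos hb0 _
  unfold gb
  rw [div_le_iff₀ h9]
  calc (2 + Real.log (4 * b)) * (1 + Real.log b) ^ 2 ≤ (16 * z) * (13 * z) ^ 2 :=
        mul_le_mul h5 h7 (by positivity) (by positivity)
    _ = 2704 * z ^ 3 := by ring
    _ = 2704 * (b : ℝ) ^ (-(5 / 4) : ℝ) * (b : ℝ) ^ (3 / 2 : ℝ) := by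
        rw [h8, mul_assoc, ← Real.rpow_add hb0]
        norm_num

theorem summable_gb : Summable gb := by
  refine Summable.of_nonneg_of_le (f := fun b : ℕ => 2704 * (b : ℝ) ^ (-(5 / 4) : ℝ))
    (fun b => ?_) (fun b => ?_) ?_
  · rcases Nat.eq_zero_or_pos b with rfl | hb
    · simp [gb]
    · exact (gb_le b hb).1
  · rcases Nat.eq_zero_or_pos b with rfl | hb
    · simp only [gb, Nat.cast_zero]
      rw [Real.zero_rpow (by norm_num), Real.zero_rpow (by norm_num)]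
      simp
    · exact (gb_le b hb).2
  · exact (Real.summable_nat_rpow.mpr (by norm_num)).mul_left _

theorem pf_LG (hDM : T_DM) : T_LG := by
  classical
  intro β s t hβ hst ε hε
  have hβ0 : (0 : ℝ) < β := by exact_mod_cast hβ
  obtain ⟨F, hF⟩ := summable_iff_vanishing_norm.mp summable_gb (ε / (5600 * (β : ℝ) ^ 4))
    (by positivity)
  refine ⟨F.sup id + 1, fun Y => ?_⟩
  rcases Nat.eq_zero_or_pos Y with rfl | hY
  · simp
  set B₁ := F.sup id + 1 with hB₁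
  set Z := 2 * β ^ 2 * Y with hZ
  have hZ1 : 1 ≤ Z := by
    rw [hZ]
    have : 1 ≤ β ^ 2 := Nat.one_le_pow _ _ hβ
    nlinarith [Nat.mul_le_mul this hY]
  set E : ℕ → Finset (ℕ × ℕ) := fun b => (Icc 1 Y ×ˢ Icc 1 Y).filter fun a : ℕ × ℕ =>
    ∃ x v : ℕ, 1 ≤ v ∧ β ^ 3 * (a.1 ^ 2 + a.2 ^ 2) = x ^ 2 + b ^ 3 * v ^ 2 with hE
  -- size of the numbers
  have hsize : ∀ a : ℕ × ℕ, a.1 ≤ Y → a.2 ≤ Y → β ^ 3 * (a.1 ^ 2 + a.2 ^ 2) ≤ Z ^ 2 := by
    intro a h1 h2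
    have e1 : a.1 ^ 2 ≤ Y ^ 2 := Nat.pow_le_pow_left h1 2
    have e2 : a.2 ^ 2 ≤ Y ^ 2 := Nat.pow_le_pow_left h2 2
    have e3 : β ^ 3 ≤ β ^ 4 := Nat.pow_le_pow_right hβ (by norm_num)
    calc β ^ 3 * (a.1 ^ 2 + a.2 ^ 2) ≤ β ^ 4 * (4 * Y ^ 2) := Nat.mul_le_mul e3 (by omega)
      _ = Z ^ 2 := by rw [hZ]; ring
  have hsub : ((Icc 1 Y ×ˢ Icc 1 Y).filter fun a : ℕ × ℕ => ∃ b x v : ℕ, B₁ < b ∧
      Squarefree b ∧ 1 ≤ v ∧ β ^ 3 * (a.1 ^ 2 + a.2 ^ 2) = x ^ 2 + b ^ 3 * v ^ 2) ⊆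
      ((Ioc B₁ (Z ^ 2)).filter fun b => Squarefree b).biUnion E := by
    intro a ha
    simp only [Finset.mem_filter, Finset.mem_product, Finset.mem_Icc] at ha
    obtain ⟨⟨⟨h1, h2⟩, h3, h4⟩, b, x, v, hb, hsq, hv, he⟩ := ha
    rw [Finset.mem_biUnion]
    refine ⟨b, ?_, ?_⟩
    · rw [Finset.mem_filter, Finset.mem_Ioc]
      refine ⟨⟨hb, ?_⟩, hsq⟩
      have h5 := hsize a h2 h4
      have h6 : b * 1 ≤ b ^ 3 * v ^ 2 :=
        Nat.mul_le_mul (Nat.le_self_pow (by norm_num) b) (Nat.one_le_pow _ _ hv)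
      omega
    · rw [hE]
      simp only [Finset.mem_filter, Finset.mem_product, Finset.mem_Icc]
      exact ⟨⟨⟨h1, h2⟩, h3, h4⟩, x, v, hv, he⟩
  -- one `b`
  have hone : ∀ b ∈ (Ioc B₁ (Z ^ 2)).filter fun b => Squarefree b,
      ((E b).card : ℝ) ≤ 1400 * (Z : ℝ) ^ 2 * gb b := by
    intro b hb
    rw [Finset.mem_filter, Finset.mem_Ioc] at hb
    have hb2 : 2 ≤ b := by omega
    have h1 := hDM b Z hb2 hb.2 hZ1
    set Q := (range (Z + 1) ×ˢ Icc 1 Z ×ˢ range (Z + 1) ×ˢ range (Z + 1)).filter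
      fun a : ℕ × ℕ × ℕ × ℕ =>
      a.2.2.1 ^ 2 + a.2.2.2 ^ 2 = a.1 ^ 2 + b ^ 3 * a.2.1 ^ 2 with hQ
    have hwit : ∀ a : ℕ × ℕ, ∃ xv : ℕ × ℕ, a ∈ E b → 1 ≤ xv.2 ∧
        β ^ 3 * (a.1 ^ 2 + a.2 ^ 2) = xv.1 ^ 2 + b ^ 3 * xv.2 ^ 2 := by
      intro a
      by_cases ha : a ∈ E b
      · have ha' := ha
        rw [hE] at ha'
        simp only [Finset.mem_filter] at ha'
        obtain ⟨_, x, v, h2, h3⟩ := ha'
        exact ⟨(x, v), fun _ => ⟨h2, h3⟩⟩
      · exact ⟨(0, 0), fun h => absurd h ha⟩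
    choose φ hφ using hwit
    have hkey : ∀ a : ℕ × ℕ, (((s : ℤ) * β * a.1 - t * β * a.2) ^ 2 +
        ((s : ℤ) * β * a.2 + t * β * a.1) ^ 2) = (β : ℤ) ^ 3 * ((a.1 : ℤ) ^ 2 + a.2 ^ 2) := by
      intro a
      have h2 : (β : ℤ) = (s : ℤ) ^ 2 + (t : ℤ) ^ 2 := by exact_mod_cast hst
      have h3 : (β : ℤ) ^ 3 = (β : ℤ) ^ 2 * ((s : ℤ) ^ 2 + (t : ℤ) ^ 2) := by
        rw [← h2]; ring
      rw [h3]
      ring
    have h2 : (E b).card ≤ (Q ×ˢ (Finset.univ : Finset Bool)).card := by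
      refine Finset.card_le_card_of_injOn (fun a => (((φ a).1, (φ a).2,
        ((s : ℤ) * β * a.1 - t * β * a.2).natAbs, s * β * a.2 + t * β * a.1),
        decide ((t : ℤ) * β * a.2 ≤ s * β * a.1))) ?_ ?_
      · intro a ha
        have ha' : a ∈ E b := ha
        obtain ⟨hv, he⟩ := hφ a ha'
        rw [hE] at ha'
        simp only [Finset.mem_filter, Finset.mem_product, Finset.mem_Icc] at ha'
        obtain ⟨⟨⟨g1, g2⟩, g3, g4⟩, _⟩ := ha'
        have hs1 := hsize a g2 g4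
        have hk := hkey a
        set y1 := ((s : ℤ) * β * a.1 - t * β * a.2).natAbs with hy1
        set w1 := s * β * a.2 + t * β * a.1 with hw1
        have hy1' : ((y1 : ℕ) : ℤ) ^ 2 = ((s : ℤ) * β * a.1 - t * β * a.2) ^ 2 := by
          rw [hy1, Int.natCast_natAbs, sq_abs]
        have hw1' : ((w1 : ℕ) : ℤ) = (s : ℤ) * β * a.2 + t * β * a.1 := by
          rw [hw1]
          push_cast
          ring
        have hsum : y1 ^ 2 + w1 ^ 2 = β ^ 3 * (a.1 ^ 2 + a.2 ^ 2) := by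
          have : ((y1 : ℕ) : ℤ) ^ 2 + ((w1 : ℕ) : ℤ) ^ 2 =
              (β : ℤ) ^ 3 * ((a.1 : ℤ) ^ 2 + (a.2 : ℤ) ^ 2) := by
            rw [hy1', hw1']
            exact hk
          exact_mod_cast this
        have le_of : ∀ z : ℕ, z ^ 2 ≤ Z ^ 2 → z ≤ Z := fun z hz =>
          (Nat.pow_le_pow_iff_left two_ne_zero).mp hz
        rw [Finset.mem_coe, Finset.mem_product]
        refine ⟨?_, Finset.mem_univ _⟩
        rw [hQ]
        simp only [Finset.mem_filter, Finset.mem_product, Finset.mem_range, Finset.mem_Icc]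
        refine ⟨⟨?_, ⟨hv, ?_⟩, ?_, ?_⟩, ?_⟩
        · exact Nat.lt_succ_of_le (le_of _ (by omega))
        · refine le_of _ ?_
          have h6 : 1 * (φ a).2 ^ 2 ≤ b ^ 3 * (φ a).2 ^ 2 :=
            Nat.mul_le_mul_right _ (Nat.one_le_pow _ _ (by omega))
          omega
        · exact Nat.lt_succ_of_le (le_of y1 (by omega))
        · exact Nat.lt_succ_of_le (le_of w1 (by omega))
        · rw [hsum]
          exact he
      · intro a ha a' ha' haa
        simp only [Prod.mk.injEq] at haa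
        obtain ⟨⟨_, _, e1, e2⟩, e3⟩ := haa
        rw [decide_eq_decide] at e3
        have e2' : (s : ℤ) * β * a.2 + t * β * a.1 = (s : ℤ) * β * a'.2 + t * β * a'.1 := by
          exact_mod_cast e2
        have e4 : (s : ℤ) * β * a.1 - t * β * a.2 = (s : ℤ) * β * a'.1 - t * β * a'.2 := by
          rcases Int.natAbs_eq_natAbs_iff.mp e1 with h | h
          · exact h
          · by_cases h3 : (t : ℤ) * β * a.2 ≤ s * β * a.1
            · have h4 := e3.mp h3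
              linarith
            · have h4 : ¬ (t : ℤ) * β * a'.2 ≤ s * β * a'.1 := fun h => h3 (e3.mpr h)
              rw [not_le] at h3 h4
              linarith
        have hβ3 : (0 : ℤ) < (β : ℤ) ^ 3 := by positivity
        have hβe : (β : ℤ) = (s : ℤ) ^ 2 + (t : ℤ) ^ 2 := by exact_mod_cast hst
        have hS3 : ((s : ℤ) * β) ^ 2 + ((t : ℤ) * β) ^ 2 = (β : ℤ) ^ 3 := by
          have : (β : ℤ) ^ 3 = (β : ℤ) ^ 2 * ((s : ℤ) ^ 2 + (t : ℤ) ^ 2) := by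
            rw [← hβe]; ring
          rw [this]
          ring
        have f1 : (β : ℤ) ^ 3 * a.1 = (β : ℤ) ^ 3 * a'.1 := by
          rw [← hS3]
          linear_combination ((s : ℤ) * β) * e4 + ((t : ℤ) * β) * e2'
        have f2 : (β : ℤ) ^ 3 * a.2 = (β : ℤ) ^ 3 * a'.2 := by
          rw [← hS3]
          linear_combination ((s : ℤ) * β) * e2' - ((t : ℤ) * β) * e4
        have f3 := mul_left_cancel₀ hβ3.ne' f1
        have f4 := mul_left_cancel₀ hβ3.ne' f2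
        exact Prod.ext (by exact_mod_cast f3) (by exact_mod_cast f4)
    rw [Finset.card_product, Finset.card_univ, Fintype.card_bool] at h2
    have h3 : ((E b).card : ℝ) ≤ (Q.card : ℝ) * 2 := by exact_mod_cast h2
    calc ((E b).card : ℝ) ≤ (Q.card : ℝ) * 2 := h3
      _ ≤ (700 * (Z : ℝ) ^ 2 * ((2 + Real.log (4 * b)) * (1 + Real.log b) ^ 2 /
        (b : ℝ) ^ (3 / 2 : ℝ))) * 2 := mul_le_mul_of_nonneg_right h1 (by norm_num)
      _ = 1400 * (Z : ℝ) ^ 2 * gb b := by unfold gb; ring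
  have hdisj : Disjoint ((Ioc B₁ (Z ^ 2)).filter fun b => Squarefree b) F := by
    rw [Finset.disjoint_left]
    intro b hb hbF
    rw [Finset.mem_filter, Finset.mem_Ioc] at hb
    have : b ≤ F.sup id := Finset.le_sup (f := id) hbF
    omega
  have htail := hF _ hdisj
  rw [Real.norm_eq_abs] at htail
  have htail' := (le_abs_self _).trans htail.le
  calc _ ≤ ((((Ioc B₁ (Z ^ 2)).filter fun b => Squarefree b).biUnion E).card : ℝ) := by
        exact_mod_cast Finset.card_le_card hsub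
    _ ≤ ((∑ b ∈ (Ioc B₁ (Z ^ 2)).filter fun b => Squarefree b, (E b).card : ℕ) : ℝ) := by
        exact_mod_cast Finset.card_biUnion_le
    _ = ∑ b ∈ (Ioc B₁ (Z ^ 2)).filter fun b => Squarefree b, ((E b).card : ℝ) := by
        push_cast; rfl
    _ ≤ ∑ b ∈ (Ioc B₁ (Z ^ 2)).filter fun b => Squarefree b, 1400 * (Z : ℝ) ^ 2 * gb b :=
        Finset.sum_le_sum hone
    _ = 1400 * (Z : ℝ) ^ 2 * ∑ b ∈ (Ioc B₁ (Z ^ 2)).filter fun b => Squarefree b, gb b := by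
        rw [Finset.mul_sum]
    _ ≤ 1400 * (Z : ℝ) ^ 2 * (ε / (5600 * (β : ℝ) ^ 4)) :=
        mul_le_mul_of_nonneg_left htail' (by positivity)
    _ = ε * (Y : ℝ) ^ 2 := by
        rw [hZ]
        push_cast
        field_simp
        ring

end Pool.Agent.H32.PSQ
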