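import Pool.Agent.H34.PS.Targets

/-!
# NT: solutions of `y^2 + w^2 = x^2 + D` (`MP_669880_nt`)
-/

set_option autoImplicit false

open Finset

namespace Pool.Agent.H32.PSQ

open Pool.Agent.H34.PS

/-- partial summation -/
theorem abel_le (a b : ℕ → ℝ) (K : ℝ) (hA : ∀ y : ℕ, ∑ d ∈ Icc 1 y, a d ≤ K * (y : ℝ))
    (hb0 : ∀ n, 0 ≤ b n) (hb : ∀ n, 1 ≤ n → b (n + 1) ≤ b n) (n : ℕ) (hn : 1 ≤ n) :
    ∑ d ∈ Icc 1 n, a d * b d ≤ K * ∑ d ∈ Icc 1 n, b d := by
  have key : ∑ d ∈ Icc 1 n, (a d - K) * b d ≤ (∑ d ∈ Icc 1 n, (a d - K)) * b n := by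
    induction n, hn using Nat.le_induction with
    | base => simp
    | succ n hn ih =>
      rw [Finset.sum_Icc_succ_top (by omega), Finset.sum_Icc_succ_top (by omega)]
      have h1 : ∑ d ∈ Icc 1 n, (a d - K) ≤ 0 := by
        rw [Finset.sum_sub_distrib]
        simp only [Finset.sum_const, Nat.card_Icc, Nat.add_sub_cancel, nsmul_eq_mul]
        linarith [hA n, mul_comm K (n : ℝ)]
      nlinarith [hb n hn, mul_nonneg (neg_nonneg.mpr h1) (sub_nonneg.mpr (hb n hn))]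
  have h1 : ∑ d ∈ Icc 1 n, (a d - K) ≤ 0 := by
    rw [Finset.sum_sub_distrib]
    simp only [Finset.sum_const, Nat.card_Icc, Nat.add_sub_cancel, nsmul_eq_mul]
    linarith [hA n, mul_comm K (n : ℝ)]
  have h2 : ∑ d ∈ Icc 1 n, (a d - K) * b d = ∑ d ∈ Icc 1 n, a d * b d -
      K * ∑ d ∈ Icc 1 n, b d := by
    rw [Finset.mul_sum, ← Finset.sum_sub_distrib]
    exact Finset.sum_congr rfl fun d _ => by ring
  rw [h2] at key
  nlinarith [mul_nonneg (neg_nonneg.mpr h1) (hb0 n)]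

theorem sum_inv_sqrt (n : ℕ) : ∑ d ∈ Icc 1 n, (1 : ℝ) / Real.sqrt d ≤ 2 * Real.sqrt n := by
  induction n with
  | zero => simp
  | succ n ih =>
    rw [Finset.sum_Icc_succ_top (by omega)]
    have hn0 : (0 : ℝ) ≤ n := Nat.cast_nonneg n
    have hn1 : (0 : ℝ) < ((n + 1 : ℕ) : ℝ) := by positivity
    set x := Real.sqrt n with hx
    set y := Real.sqrt ((n + 1 : ℕ) : ℝ) with hy
    have hx0 : 0 ≤ x := Real.sqrt_nonneg _
    have hy0 : 0 < y := Real.sqrt_pos.mpr hn1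
    have hxx : x * x = n := Real.mul_self_sqrt hn0
    have hyy : y * y = ((n + 1 : ℕ) : ℝ) := Real.mul_self_sqrt hn1.le
    have hd : y * y - x * x = 1 := by
      rw [hxx, hyy]
      push_cast
      ring
    have h1 : 1 / y ≤ 2 * y - 2 * x := by
      rw [div_le_iff₀ hy0]
      nlinarith [sq_nonneg (y - x)]
    linarith

/-- numbers in a residue class modulo `d` whose squares are in a short interval -/
theorem card_class_le (D Z d r : ℕ) (hd : 1 ≤ d) (hdZ : d ≤ Z) (F : Finset ℕ)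
    (hF : ∀ w ∈ F, w % d = r ∧ |(w : ℤ) ^ 2 - D| ≤ 2 * Z * d) :
    (F.card : ℝ) ≤ 3 * (Real.sqrt Z * (1 / Real.sqrt d)) := by
  have hd0 : (0 : ℝ) < d := by exact_mod_cast hd
  have hdZ' : (d : ℝ) ≤ Z := by exact_mod_cast hdZ
  have hsd : 0 < Real.sqrt d := Real.sqrt_pos.mpr hd0
  have hq : 1 ≤ Real.sqrt Z * (1 / Real.sqrt d) := by
    rw [mul_one_div, le_div_iff₀ hsd, one_mul]
    exact Real.sqrt_le_sqrt hdZ'
  rcases F.eq_empty_or_nonempty with rfl | hne
  · simp only [Finset.card_empty, Nat.cast_zero]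
    linarith
  set m := F.min' hne with hm
  have hmF : m ∈ F := F.min'_mem hne
  set J : ℕ := ⌊2 * (Real.sqrt Z * (1 / Real.sqrt d))⌋₊ with hJ
  have hcard : F.card ≤ (range (J + 1)).card := by
    refine Finset.card_le_card_of_injOn (fun w => (w - m) / d) ?_ ?_
    · intro w hw
      have hw' : w ∈ F := hw
      have hmw : m ≤ w := F.min'_le w hw'
      obtain ⟨e1, e2⟩ := hF w hw'
      obtain ⟨e3, e4⟩ := hF m hmF
      rw [Finset.mem_coe, Finset.mem_range, Nat.lt_succ_iff]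
      refine Nat.le_floor ?_
      obtain ⟨k, hk⟩ : d ∣ w - m := (Nat.modEq_iff_dvd' hmw).mp (by
        unfold Nat.ModEq
        rw [e1, e3])
      have hk' : w = m + d * k := by omega
      simp only
      rw [hk, Nat.mul_div_cancel_left k hd]
      -- `(d k)^2 ≤ 4 Z d`
      have h1 : ((d : ℤ) * k) ^ 2 ≤ 4 * Z * d := by
        have e5 : ((d : ℤ) * k) ^ 2 ≤ (w : ℤ) ^ 2 - (m : ℤ) ^ 2 := by
          rw [hk']
          push_cast
          have : (0 : ℤ) ≤ (m : ℤ) * ((d : ℤ) * k) := by positivity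
          nlinarith
        rw [abs_le] at e2 e4
        linarith [e2.1, e2.2, e4.1, e4.2]
      have h2 : ((d : ℝ) * k) ^ 2 ≤ 4 * Z * d := by exact_mod_cast h1
      have h3 : (d : ℝ) * (k : ℝ) ^ 2 ≤ 4 * Z := by
        have : (d : ℝ) * ((d : ℝ) * (k : ℝ) ^ 2) ≤ (d : ℝ) * (4 * Z) := by nlinarith
        exact le_of_mul_le_mul_left this hd0
      rw [mul_one_div, ← mul_div_assoc, le_div_iff₀ hsd]
      have h4 : 0 ≤ 2 * Real.sqrt Z := by positivity
      refine le_of_sq_le_sq ?_ h4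
      rw [mul_pow, mul_pow, Real.sq_sqrt hd0.le, Real.sq_sqrt (Nat.cast_nonneg Z)]
      linarith
    · intro w hw w' hw' hww
      have a1 : w ∈ F := hw
      have a2 : w' ∈ F := hw'
      have b1 : m ≤ w := F.min'_le w a1
      have b2 : m ≤ w' := F.min'_le w' a2
      obtain ⟨k, hk⟩ : d ∣ w - m := (Nat.modEq_iff_dvd' b1).mp (by
        unfold Nat.ModEq
        rw [(hF w a1).1, (hF m hmF).1])
      obtain ⟨k', hk'⟩ : d ∣ w' - m := (Nat.modEq_iff_dvd' b2).mp (by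
        unfold Nat.ModEq
        rw [(hF w' a2).1, (hF m hmF).1])
      simp only at hww
      rw [hk, hk', Nat.mul_div_cancel_left k hd, Nat.mul_div_cancel_left k' hd] at hww
      rw [hww] at hk
      omega
  rw [Finset.card_range] at hcard
  have h5 : (J : ℝ) ≤ 2 * (Real.sqrt Z * (1 / Real.sqrt d)) := Nat.floor_le (by positivity)
  calc (F.card : ℝ) ≤ ((J + 1 : ℕ) : ℝ) := by exact_mod_cast hcard
    _ = (J : ℝ) + 1 := by push_cast; ring
    _ ≤ _ := by linarith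

theorem pf_NT : T_NT := by
  classical
  intro D Z K hZ hD hS
  have hK : 0 ≤ K := by
    have h1 := hS 1
    have h2 : (0 : ℝ) ≤ ∑ d ∈ Icc 1 1, (rho D d : ℝ) :=
      Finset.sum_nonneg fun _ _ => Nat.cast_nonneg _
    simp only [Nat.cast_one, mul_one] at h1
    linarith
  set S := (range (Z + 1) ×ˢ range (Z + 1) ×ˢ range (Z + 1)).filter fun a : ℕ × ℕ × ℕ =>
      a.2.1 ^ 2 + a.2.2 ^ 2 = a.1 ^ 2 + D with hSdef
  have hmem : ∀ a ∈ S, a.1 < Z + 1 ∧ a.2.1 < Z + 1 ∧ a.2.2 < Z + 1 ∧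
      a.2.1 ^ 2 + a.2.2 ^ 2 = a.1 ^ 2 + D := by
    intro a ha
    rw [hSdef] at ha
    simp only [Finset.mem_filter, Finset.mem_product, Finset.mem_range] at ha
    exact ⟨ha.1.1, ha.1.2.1, ha.1.2.2, ha.2⟩
  have hZ' : ∀ a ∈ S, ((a.2.1 : ℤ) - a.1) * ((a.2.1 : ℤ) + a.1) = (D : ℤ) - (a.2.2 : ℤ) ^ 2 ∧
      (a.2.1 : ℤ) ≠ a.1 := by
    intro a ha
    obtain ⟨_, _, _, h4⟩ := hmem a ha
    have h5 : (a.2.1 : ℤ) ^ 2 + (a.2.2 : ℤ) ^ 2 = (a.1 : ℤ) ^ 2 + D := by exact_mod_cast h4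
    refine ⟨by linarith, fun h6 => hD ?_⟩
    have h7 : a.2.1 = a.1 := by exact_mod_cast h6
    rw [h7] at h4
    exact ⟨a.2.2, by rw [← sq]; omega⟩
  set W : ℕ → Finset ℕ := fun d => (range (Z + 1)).filter fun w =>
    w ^ 2 ≡ D [MOD d] ∧ |(w : ℤ) ^ 2 - D| ≤ 2 * Z * d with hW
  -- reduction to pairs `(d, w)`
  have hA : S.card ≤ ((Icc 1 Z).sigma W).card := by
    refine Finset.card_le_card_of_injOn
      (fun a => (⟨((a.2.1 : ℤ) - a.1).natAbs, a.2.2⟩ : (_ : ℕ) × ℕ)) ?_ ?_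
    · intro a ha
      obtain ⟨h1, h2, h3, _⟩ := hmem a ha
      obtain ⟨h5, h6⟩ := hZ' a ha
      rw [Finset.mem_coe, Finset.mem_sigma]
      simp only [hW, Finset.mem_filter, Finset.mem_range, Finset.mem_Icc]
      refine ⟨⟨by omega, by omega⟩, h3, ?_, ?_⟩
      · rw [Nat.modEq_iff_dvd, Int.natAbs_dvd]
        exact ⟨(a.2.1 : ℤ) + a.1, by rw [h5]; push_cast; ring⟩
      · rw [abs_sub_comm, ← h5, abs_mul, Int.natCast_natAbs]
        have h7 : |(a.2.1 : ℤ) + a.1| ≤ 2 * Z := by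
          rw [abs_le]
          constructor <;> omega
        calc |(a.2.1 : ℤ) - a.1| * |(a.2.1 : ℤ) + a.1| ≤ |(a.2.1 : ℤ) - a.1| * (2 * Z) :=
              mul_le_mul_of_nonneg_left h7 (abs_nonneg _)
          _ = _ := by ring
    · intro a ha a' ha' haa
      obtain ⟨h5, h6⟩ := hZ' a ha
      obtain ⟨h5', h6'⟩ := hZ' a' ha'
      obtain ⟨x, y, w⟩ := a
      obtain ⟨x', y', w'⟩ := a'
      simp only [Sigma.mk.injEq, heq_eq_eq] at haa h5 h6 h5' h6'
      obtain ⟨e1, e2⟩ := haa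
      subst e2
      have e3 : ((y : ℤ) - x) ≠ 0 := sub_ne_zero.mpr h6
      rcases Int.natAbs_eq_natAbs_iff.mp e1 with e4 | e4
      · rw [← h5, ← e4] at h5'
        have e5 := mul_left_cancel₀ e3 h5'
        have e6 : x = x' := by omega
        have e7 : y = y' := by omega
        rw [e6, e7]
      · exfalso
        have e4' : (y' : ℤ) - x' = -((y : ℤ) - x) := by omega
        rw [← h5, e4', neg_mul, ← mul_neg] at h5'
        have e5 := mul_left_cancel₀ e3 h5'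
        omega
  rw [Finset.card_sigma] at hA
  -- the fibres
  have hB : ∀ d ∈ Icc 1 Z, ((W d).card : ℝ) ≤
      (rho D d : ℝ) * (3 * (Real.sqrt Z * (1 / Real.sqrt d))) := by
    intro d hd
    rw [Finset.mem_Icc] at hd
    have h1 : (W d).card = ∑ r ∈ (range d).filter (fun w => w ^ 2 ≡ D [MOD d]),
        ((W d).filter fun w => w % d = r).card := by
      refine Finset.card_eq_sum_card_fiberwise fun w hw => ?_
      rw [Finset.mem_coe, hW] at hw
      simp only [Finset.mem_filter, Finset.mem_range] at hw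
      rw [Finset.mem_coe, Finset.mem_filter, Finset.mem_range]
      exact ⟨Nat.mod_lt _ (by omega), ((Nat.mod_modEq w d).pow 2).trans hw.2.1⟩
    rw [h1, Nat.cast_sum]
    have h2 : ∀ r ∈ (range d).filter (fun w => w ^ 2 ≡ D [MOD d]),
        (((W d).filter fun w => w % d = r).card : ℝ) ≤
          3 * (Real.sqrt Z * (1 / Real.sqrt d)) := by
      intro r _
      refine card_class_le D Z d r hd.1 hd.2 _ fun w hw => ?_
      rw [Finset.mem_filter, hW] at hw
      simp only [Finset.mem_filter] at hw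
      exact ⟨hw.2, hw.1.2.2⟩
    refine (Finset.sum_le_sum h2).trans (le_of_eq ?_)
    rw [Finset.sum_const, nsmul_eq_mul]
    rfl
  calc (S.card : ℝ) ≤ ((∑ d ∈ Icc 1 Z, (W d).card : ℕ) : ℝ) := by exact_mod_cast hA
    _ = ∑ d ∈ Icc 1 Z, ((W d).card : ℝ) := by push_cast; rfl
    _ ≤ ∑ d ∈ Icc 1 Z, (rho D d : ℝ) * (3 * (Real.sqrt Z * (1 / Real.sqrt d))) :=
        Finset.sum_le_sum hB
    _ = 3 * Real.sqrt Z * ∑ d ∈ Icc 1 Z, (rho D d : ℝ) * (1 / Real.sqrt d) := by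
        rw [Finset.mul_sum]
        exact Finset.sum_congr rfl fun d _ => by ring
    _ ≤ 3 * Real.sqrt Z * (K * ∑ d ∈ Icc 1 Z, 1 / Real.sqrt d) := by
        refine mul_le_mul_of_nonneg_left ?_ (by positivity)
        refine abel_le (fun d => (rho D d : ℝ)) (fun d => 1 / Real.sqrt d) K hS
          (fun n => by positivity) (fun n hn => ?_) Z hZ
        have hn0 : (0 : ℝ) < n := by exact_mod_cast hn
        refine one_div_le_one_div_of_le (Real.sqrt_pos.mpr hn0) (Real.sqrt_le_sqrt ?_)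
        push_cast
        linarith
    _ ≤ 3 * Real.sqrt Z * (K * (2 * Real.sqrt Z)) := by
        refine mul_le_mul_of_nonneg_left ?_ (by positivity)
        exact mul_le_mul_of_nonneg_left (sum_inv_sqrt Z) hK
    _ = 6 * K * (Real.sqrt Z * Real.sqrt Z) := by ring
    _ = 6 * K * (Z : ℝ) := by rw [Real.mul_self_sqrt (Nat.cast_nonneg Z)]

end Pool.Agent.H32.PSQ
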