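import Pool.Agent.H34.PS.Targets

/-!
# SG: the sum of the reciprocals of the divisors (`MP_669880_nt`)
-/

set_option autoImplicit false

open Finset

namespace Pool.Agent.H32.PSQ

open Pool.Agent.H34.PS

theorem sg_mul_le (m n : ℕ) : sg (m * n) ≤ sg m * sg n := by
  classical
  unfold sg
  rw [Nat.divisors_mul, Finset.mul_def, Finset.sum_mul_sum, ← Finset.sum_product']
  refine (Finset.sum_image_le_of_nonneg fun u _ => by positivity).trans (le_of_eq ?_)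
  refine Finset.sum_congr rfl fun x _ => ?_
  push_cast
  rw [div_mul_div_comm, one_mul]

theorem sg_le_log (n : ℕ) : sg n ≤ 1 + Real.log n := by
  have h1 := harmonic_le_one_add_log n
  have h2 : ((harmonic n : ℚ) : ℝ) = ∑ i ∈ Icc 1 n, (1 : ℝ) / (i : ℝ) := by
    rw [harmonic_eq_sum_Icc]
    push_cast
    exact Finset.sum_congr rfl fun i _ => by rw [one_div]
  rw [h2] at h1
  refine le_trans ?_ h1
  unfold sg
  refine Finset.sum_le_sum_of_subset_of_nonneg ?_ fun i _ _ => by positivity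
  intro t ht
  rw [Nat.mem_divisors] at ht
  exact Finset.mem_Icc.mpr ⟨Nat.pos_of_dvd_of_pos ht.1 (Nat.pos_of_ne_zero ht.2),
    Nat.le_of_dvd (Nat.pos_of_ne_zero ht.2) ht.1⟩

theorem step_three_half (n : ℕ) (hn : 1 ≤ n) :
    (1 : ℝ) / (((n + 1 : ℕ) : ℝ) * Real.sqrt ((n + 1 : ℕ) : ℝ)) ≤
      2 / Real.sqrt n - 2 / Real.sqrt ((n + 1 : ℕ) : ℝ) := by
  have hn0 : (0 : ℝ) < n := by exact_mod_cast hn
  have hn1 : (0 : ℝ) < ((n + 1 : ℕ) : ℝ) := by positivity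
  set x := Real.sqrt n with hx
  set y := Real.sqrt ((n + 1 : ℕ) : ℝ) with hy
  have hx0 : 0 < x := Real.sqrt_pos.mpr hn0
  have hy0 : 0 < y := Real.sqrt_pos.mpr hn1
  have hxx : x * x = n := Real.mul_self_sqrt hn0.le
  have hyy : y * y = ((n + 1 : ℕ) : ℝ) := Real.mul_self_sqrt hn1.le
  have hd : y * y - x * x = 1 := by
    rw [hxx, hyy]
    push_cast
    ring
  have hxy : x ≤ y := by nlinarith
  rw [← hyy, div_sub_div _ _ hx0.ne' hy0.ne', div_le_div_iff₀ (by positivity) (by positivity)]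
  have h1 : 0 ≤ y - x := by linarith
  have h2 : (y - x) * (y + x) = 1 := by linarith
  have h3 : x * y * (y + x) ≤ 2 * (y * y * y) := by
    nlinarith [mul_nonneg h1 hy0.le, mul_nonneg (mul_nonneg h1 hy0.le) hy0.le,
      mul_nonneg (mul_nonneg h1 hx0.le) hy0.le]
  calc 1 * (x * y) = x * y * ((y - x) * (y + x)) := by rw [h2]; ring
    _ = (y - x) * (x * y * (y + x)) := by ring
    _ ≤ (y - x) * (2 * (y * y * y)) := mul_le_mul_of_nonneg_left h3 h1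
    _ = (2 * y - x * 2) * (y * y * y) := by ring

/-- the sum of `f ^ (-3/2)` -/
theorem sum_three_half (V : ℕ) (hV : 1 ≤ V) :
    ∑ f ∈ Icc 1 V, (1 : ℝ) / ((f : ℝ) * Real.sqrt f) ≤ 3 - 2 / Real.sqrt V := by
  induction V, hV using Nat.le_induction with
  | base => norm_num
  | succ n hn ih =>
    rw [Finset.sum_Icc_succ_top (by omega)]
    have := step_three_half n hn
    linarith

theorem card_two_dvd_le (V f g : ℕ) (hf : 1 ≤ f) (hg : 1 ≤ g) :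
    (((Icc 1 V).filter fun v => f ∣ v ∧ g ∣ v).card : ℝ) ≤
      (V : ℝ) * (1 / (Real.sqrt f * Real.sqrt g)) := by
  have h1 : ((Icc 1 V).filter fun v => f ∣ v ∧ g ∣ v) =
      (Ioc 0 V).filter fun v => Nat.lcm f g ∣ v := by
    ext v
    simp only [Finset.mem_filter, Finset.mem_Icc, Finset.mem_Ioc, Nat.lcm_dvd_iff]
    constructor
    · rintro ⟨⟨a, b⟩, c⟩
      exact ⟨⟨a, b⟩, c⟩
    · rintro ⟨⟨a, b⟩, c⟩
      exact ⟨⟨a, b⟩, c⟩
  rw [h1, Nat.Ioc_filter_dvd_card_eq_div]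
  have hl : 0 < Nat.lcm f g := Nat.lcm_pos hf hg
  have hfl : f ≤ Nat.lcm f g := Nat.le_of_dvd hl (Nat.dvd_lcm_left f g)
  have hgl : g ≤ Nat.lcm f g := Nat.le_of_dvd hl (Nat.dvd_lcm_right f g)
  have hf0 : (0 : ℝ) < f := by exact_mod_cast hf
  have hg0 : (0 : ℝ) < g := by exact_mod_cast hg
  have hsf : 0 < Real.sqrt f := Real.sqrt_pos.mpr hf0
  have hsg : 0 < Real.sqrt g := Real.sqrt_pos.mpr hg0
  have hl0 : (0 : ℝ) < (Nat.lcm f g : ℕ) := by exact_mod_cast hl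
  have h2 : Real.sqrt f * Real.sqrt g ≤ (Nat.lcm f g : ℕ) := by
    have e1 : Real.sqrt f ≤ Real.sqrt (Nat.lcm f g : ℕ) :=
      Real.sqrt_le_sqrt (by exact_mod_cast hfl)
    have e2 : Real.sqrt g ≤ Real.sqrt (Nat.lcm f g : ℕ) :=
      Real.sqrt_le_sqrt (by exact_mod_cast hgl)
    calc _ ≤ Real.sqrt (Nat.lcm f g : ℕ) * Real.sqrt (Nat.lcm f g : ℕ) :=
          mul_le_mul e1 e2 hsg.le (Real.sqrt_nonneg _)
      _ = _ := Real.mul_self_sqrt hl0.le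
  calc ((V / Nat.lcm f g : ℕ) : ℝ) ≤ (V : ℝ) / (Nat.lcm f g : ℕ) := Nat.cast_div_le
    _ ≤ (V : ℝ) / (Real.sqrt f * Real.sqrt g) :=
        div_le_div_of_nonneg_left (Nat.cast_nonneg _) (mul_pos hsf hsg) h2
    _ = _ := by rw [mul_one_div]

theorem sum_sg_sq (V : ℕ) : ∑ v ∈ Icc 1 V, sg v ^ 2 ≤ 9 * (V : ℝ) := by
  classical
  have h1 : ∀ v ∈ Icc 1 V, sg v ^ 2 = ∑ f ∈ Icc 1 V, ∑ g ∈ Icc 1 V,
      (if f ∣ v ∧ g ∣ v then (1 : ℝ) / (f : ℝ) * (1 / (g : ℝ)) else 0) := by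
    intro v hv
    rw [Finset.mem_Icc] at hv
    have e1 : sg v = ∑ f ∈ Icc 1 V, (if f ∣ v then (1 : ℝ) / (f : ℝ) else 0) := by
      unfold sg
      rw [← Finset.sum_filter]
      refine Finset.sum_congr ?_ fun _ _ => rfl
      ext t
      rw [Nat.mem_divisors, Finset.mem_filter, Finset.mem_Icc]
      constructor
      · rintro ⟨a, b⟩
        exact ⟨⟨Nat.pos_of_dvd_of_pos a (by omega), (Nat.le_of_dvd (by omega) a).trans hv.2⟩, a⟩
      · rintro ⟨a, b⟩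
        exact ⟨b, by omega⟩
    rw [sq, e1, Finset.sum_mul_sum]
    refine Finset.sum_congr rfl fun f _ => Finset.sum_congr rfl fun g _ => ?_
    by_cases hf : f ∣ v
    · by_cases hg : g ∣ v
      · simp [hf, hg]
      · simp [hg]
    · simp [hf]
  rw [Finset.sum_congr rfl h1, Finset.sum_comm]
  have h2 : ∀ f ∈ Icc 1 V, (∑ v ∈ Icc 1 V, ∑ g ∈ Icc 1 V,
      (if f ∣ v ∧ g ∣ v then (1 : ℝ) / (f : ℝ) * (1 / (g : ℝ)) else 0)) ≤
      ∑ g ∈ Icc 1 V, (V : ℝ) * ((1 : ℝ) / ((f : ℝ) * Real.sqrt f) *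
        (1 / ((g : ℝ) * Real.sqrt g))) := by
    intro f hf
    rw [Finset.sum_comm]
    refine Finset.sum_le_sum fun g hg => ?_
    rw [Finset.mem_Icc] at hf hg
    rw [← Finset.sum_filter, Finset.sum_const, nsmul_eq_mul]
    have hf0 : (0 : ℝ) < f := by exact_mod_cast hf.1
    have hg0 : (0 : ℝ) < g := by exact_mod_cast hg.1
    have hsf : 0 < Real.sqrt f := Real.sqrt_pos.mpr hf0
    have hsg : 0 < Real.sqrt g := Real.sqrt_pos.mpr hg0
    calc _ ≤ ((V : ℝ) * (1 / (Real.sqrt f * Real.sqrt g))) * (1 / (f : ℝ) * (1 / (g : ℝ))) :=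
          mul_le_mul_of_nonneg_right (card_two_dvd_le V f g hf.1 hg.1) (by positivity)
      _ = _ := by
          field_simp
  refine (Finset.sum_le_sum h2).trans ?_
  have h3 : ∑ f ∈ Icc 1 V, ∑ g ∈ Icc 1 V, (V : ℝ) * ((1 : ℝ) / ((f : ℝ) * Real.sqrt f) *
        (1 / ((g : ℝ) * Real.sqrt g))) =
      (V : ℝ) * (∑ f ∈ Icc 1 V, (1 : ℝ) / ((f : ℝ) * Real.sqrt f)) ^ 2 := by
    rw [sq, Finset.sum_mul_sum, Finset.mul_sum]
    exact Finset.sum_congr rfl fun f _ => by rw [Finset.mul_sum]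
  rw [h3]
  have h4 : 0 ≤ ∑ f ∈ Icc 1 V, (1 : ℝ) / ((f : ℝ) * Real.sqrt f) :=
    Finset.sum_nonneg fun f _ => by positivity
  have h5 : ∑ f ∈ Icc 1 V, (1 : ℝ) / ((f : ℝ) * Real.sqrt f) ≤ 3 := by
    rcases Nat.eq_zero_or_pos V with rfl | hV
    · norm_num
    · have := sum_three_half V hV
      have h6 : (0 : ℝ) ≤ 2 / Real.sqrt V := by positivity
      linarith
  have h6 : (∑ f ∈ Icc 1 V, (1 : ℝ) / ((f : ℝ) * Real.sqrt f)) ^ 2 ≤ 9 := by nlinarith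
  nlinarith [mul_le_mul_of_nonneg_left h6 (Nat.cast_nonneg (α := ℝ) V)]

theorem pf_SG : T_SG :=
  ⟨fun m n _ _ => sg_mul_le m n, fun n _ => sg_le_log n, sum_sg_sq⟩

end Pool.Agent.H32.PSQ
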